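import Mathlib
import Pool.Agent.Lib.MP_356f68_co.Hyp.Prep

/-! The completion lemma with a reservoir that avoids a prescribed set. -/

set_option autoImplicit false
set_option linter.unusedSectionVars false

namespace Pool.Agent.Lib.MP_356f68_co.Cube

open Finset

variable {α : Type} [Fintype α] [DecidableEq α] {ι : Type} [DecidableEq ι]
  {E : (Fin 5 → α) → Prop} {T : ι → Fin 5 → α}

lemma many_confh [Fintype ι] (hE : Lat E) (hT : ∀ j, Function.Injective (fun a => T a j))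
    (hm : 18 * Fintype.card α ≤ 20 * Fintype.card ι) (G M : ℕ)
    (hG : 2240 * (G * M) + 3200 < 6 * Fintype.card α) (u : Fin 5 → α) (v : α × α) :
    ∃ K : Fin G × Fin M → Finset ι, (∀ e, (K e).card ≤ 16 ∧
      (Disjoint (col u) (cv v) → Cg E T (cv v ∪ col u) (K e) 8 8)) ∧
      ∀ e e', e ≠ e' → Disjoint (K e) (K e') := by
  by_cases huv : Disjoint (col u) (cv v)
  swap
  · exact ⟨fun _ => ∅, fun _ => ⟨by simp, fun h => absurd h huv⟩, by simp⟩
  set B0 : Finset ι := univ.filter (fun a => ¬ Disjoint (col (T a)) (col u ∪ cv v)) with hB0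
  have h2 : B0.card ≤ 7 := by
    have g1 := card_hit hT (col u ∪ cv v)
    have g2 := card_union_le (col u) (cv v)
    have g3 := card_cv v
    rw [card_col] at g2
    rw [← hB0] at g1
    omega
  obtain ⟨K, h3, h4⟩ := greedy (univ : Finset (Fin G × Fin M))
    (fun _ K => Cg E T (cv v ∪ col u) K 8 8) B0 16 (7 + 16 * (G * M)) (by
      intro _ _ B hB1 hB2
      obtain ⟨K, g1, g2, g3⟩ := step2g hE hT (D := univ \ B) huv (by
        rw [CC, disjoint_biUnion_right]
        intro a ha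
        by_contra h
        exact (mem_sdiff.1 ha).2 (hB1 (mem_filter.2 ⟨mem_univ _, fun h' => h h'.symm⟩))) (by
        rw [card_univ_sdiff]
        omega)
      exact ⟨K, g2, sdiff_disjoint.mono_left g1, g3⟩) (by simp; omega)
  exact ⟨K, fun e => ⟨(h3 e (mem_univ _)).1, fun _ => (h3 e (mem_univ _)).2.2⟩,
    fun e e' => h4 e (mem_univ _) e' (mem_univ _)⟩

open Pool.Agent.Shared.FunProb in
theorem exists_resh [Fintype ι] (hE : Lat E) (hT : ∀ j, Function.Injective (fun a => T a j))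
    (hm : 18 * Fintype.card α ≤ 20 * Fintype.card ι) (G M k l : ℕ) (hk : 1 ≤ k)
    (hl1 : 1 ≤ l) (hkn : k ≤ Fintype.card α) (hl : Fintype.card α < 2 ^ l)
    (hM : M = 12 * l * k ^ 16) (hG : 2240 * (G * M) + 3200 < 6 * Fintype.card α) :
    ∃ J : Finset ι, k * J.card ≤ Fintype.card ι ∧ Res3g E T J G := by
  choose K hK1 hK2 using many_confh hE hT hm G M hG
  have : Nonempty (Fin k) := ⟨⟨0, hk⟩⟩
  have hk' : (1 : ℝ) ≤ k := by exact_mod_cast hk
  have hk1 : 1 / (k : ℝ) ≤ 1 := by rw [div_le_one (by linarith)]; exact hk'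
  obtain ⟨φ, hφ⟩ := exists_all_succeed (P := ι) (F := Fin k)
    (ρ := (Fin 5 → α) × (α × α) × Fin G × Fin k) (ι := Fin M) (fun _ => univ)
    (fun r i φ => ∀ a ∈ K r.1 r.2.1 (r.2.2.1, i), φ a = r.2.2.2)
    (fun r i => K r.1 r.2.1 (r.2.2.1, i)) ((1 / k) ^ 16) M (pow_le_one₀ (by positivity) hk1)
    (by positivity) (fun r i _ f g hfg h a ha => (hfg a ha) ▸ h a ha)
    (fun r i _ j _ hij => hK2 _ _ _ _ (fun h => hij (Prod.ext_iff.1 h).2))
    (fun r i _ => by
      rw [pr_forall _ (fun a (φ : ι → Fin k) => φ a = r.2.2.2) (fun a => {a})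
        (fun a _ f g hfg h => (hfg a (mem_singleton_self a)).symm.trans h)
        (fun a _ b _ hab => disjoint_singleton.2 hab)]
      simp only [pr_coord, prod_const, Fintype.card_fin]
      exact pow_le_pow_of_le_one (by positivity) hk1 (hK1 _ _ _).1)
    (by simp) (by
      set n := Fintype.card α with hn
      have hM1 : 1 ≤ M := by rw [hM]; exact Nat.mul_pos (by omega) (by positivity)
      have hGn : G ≤ n := by nlinarith
      have hn1 : 1 ≤ n := by omega
      have h1 : Fintype.card ((Fin 5 → α) × (α × α) × Fin G × Fin k) ≤ n ^ 12 := by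
        simp only [Fintype.card_prod, Fintype.card_fun, Fintype.card_fin, ← hn]
        calc _ ≤ n ^ 5 * (n * n * (n * n)) := by gcongr
          _ = n ^ 9 := by ring
          _ ≤ _ := Nat.pow_le_pow_right hn1 (by norm_num)
      have h2 : (1 - (1 / k : ℝ) ^ 16) ^ M ≤ Real.exp (-(1 / k : ℝ) ^ 16) ^ M :=
        pow_le_pow_left₀ (by linarith [pow_le_one₀ (n := 16) (by positivity) hk1])
          (by linarith [Real.add_one_le_exp (-(1 / k : ℝ) ^ 16)]) M
      have h3 : Real.exp (-(1 / k : ℝ) ^ 16) ^ M = (Real.exp 1 ^ (12 * l))⁻¹ := by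
        rw [← Real.exp_nat_mul, ← Real.exp_nat_mul, ← Real.exp_neg, hM]
        congr 1; push_cast; field_simp
      have h4 : ((n : ℝ)) ^ 12 < Real.exp 1 ^ (12 * l) := by
        rw [mul_comm, pow_mul]
        refine pow_lt_pow_left₀ ?_ (by positivity) (by norm_num)
        calc (n : ℝ) < 2 ^ l := by exact_mod_cast hl
          _ ≤ _ := pow_le_pow_left₀ (by norm_num) (by linarith [Real.add_one_le_exp 1]) l
      have h5 : (Fintype.card ((Fin 5 → α) × (α × α) × Fin G × Fin k) : ℝ) ≤ n ^ 12 := by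
        exact_mod_cast h1
      rw [h3] at h2
      calc _ ≤ (n : ℝ) ^ 12 * (Real.exp 1 ^ (12 * l))⁻¹ :=
            mul_le_mul h5 h2
              (pow_nonneg (by linarith [pow_le_one₀ (n := 16) (by positivity) hk1]) _)
              (by positivity)
        _ < 1 := by rw [← div_eq_mul_inv, div_lt_one (by positivity)]; exact h4)
  obtain ⟨c, -, hc⟩ : ∃ c ∈ (univ : Finset (Fin k)),
      k * (univ.filter (fun a => φ a = c)).card ≤ Fintype.card ι := by
    apply exists_le_of_sum_le univ_nonempty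
    rw [← mul_sum, ← card_eq_sum_card_fiberwise (fun _ _ => mem_univ _)]
    simp
  refine ⟨_, hc, fun u f huf Us hUs => ?_⟩
  choose i _ hi using fun g : Fin G => hφ (u, f, g, c)
  by_contra hne
  push Not at hne
  have h1 : ∀ g : Fin G, ∃ a, a ∈ K u f (g, i g) ∧ a ∈ Us := by
    intro g
    by_contra h
    push Not at h
    exact hne _ (fun a ha => mem_filter.2 ⟨mem_univ _, hi g a ha⟩) (hK1 _ _ _).1
      (disjoint_left.2 h) ((hK1 _ _ _).2 huf)
  choose a ha1 ha2 using h1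
  have h2 := card_le_card_of_injOn (s := univ) a (fun g _ => ha2 g) (fun g _ g' _ h => by
    by_contra hg
    exact disjoint_left.1 (hK2 u f (g, i g) (g', i g') fun h => hg (Prod.ext_iff.1 h).1) (ha1 g)
      (h ▸ ha1 g'))
  simp at h2
  omega

theorem assemble4 [Fintype ι] [Nonempty ι] [Nonempty α] (hE : Lat E)
    (hT : ∀ j, Function.Injective (fun a => T a j)) (p : Fin 5 → α) (hp : ∀ a j, T a j ≠ p j)
    (F : Finset (Col α)) (hF : ∀ a, Disjoint (col (T a)) F) (hF' : Disjoint (col p) F)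
    {w β G L X : ℕ} (hA : Abs E T w β)
    {J : Finset ι} (hJ : Res3g E T J G) (hL : 1 ≤ L) (h1 : J.card ≤ 2 ^ L)
    (h2 : 2 * L * J.card ≤ Fintype.card ι)
    (h3 : 5 * (2 * L * J.card) + 5 + w * (8 * L * J.card) + F.card ≤ β)
    (h4 : 200 * β ≤ Fintype.card α) (hX : 1 ≤ X) (h5 : 10 ^ 17 * X ^ 15 ≤ Fintype.card α)
    (h6 : ∀ r, r * X ≤ 6 * Fintype.card α → 16 * r ≤ G) :
    ∃ R : Finset (Col α), R.card ≤ 5 * (2 * L * J.card) + 5 + w * (8 * L * J.card) ∧
      col p ⊆ R ∧ Disjoint R F ∧ Cmp5 E p R := by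
  obtain ⟨Nd, Ed, t1, t2, t3, t4, t5⟩ := template J L hL h1 h2
  have c1 : (CC T Nd ∪ col p).card ≤ 5 * (2 * L * J.card) + 5 := by
    have := card_biUnion_le_card_mul Nd (fun a => col (T a)) 5 (fun a _ => (card_col _).le)
    have g2 := card_union_le (CC T Nd) (col p)
    rw [card_col] at g2
    unfold CC at g2 ⊢; omega
  have c2 : w * Ed.card ≤ w * (8 * L * J.card) := Nat.mul_le_mul_left _ t3
  obtain ⟨W, w1, w2⟩ := greedy Ed
    (fun e W => PM E W ∧ PM E (W ∪ (pc (T e.1) ∪ qc (T e.2)))) (CC T Nd ∪ col p ∪ F) w β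
    (fun e he B hB1 hB2 => hA e.1 e.2 B (by
      rw [pq_eq]
      exact ((sub_CC (singleton_subset_iff.2 (t4 e he).1)
        (singleton_subset_iff.2 (t4 e he).2)).trans (subset_union_left.trans
          subset_union_left)).trans hB1) hB2) (by
      have := card_union_le (CC T Nd ∪ col p) F
      omega)
  have d00 : Disjoint (Ed.biUnion W) (CC T Nd ∪ col p ∪ F) :=
    (disjoint_biUnion_left _ _ _).2 fun e he => (w1 e he).2.1
  have d0 : Disjoint (Ed.biUnion W) (CC T Nd ∪ col p) := d00.mono_right subset_union_left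
  have d1 : Disjoint (Ed.biUnion W) (CC T Nd) := d0.mono_right subset_union_left
  have dp : Disjoint (CC T Nd) (col p) :=
    (disjoint_biUnion_left _ _ _).2 fun a _ => disjoint_col.2 (hp a)
  have sp : pc p ⊆ col p := col_eq p ▸ subset_union_left
  have sq : qc p ⊆ col p := col_eq p ▸ subset_union_right
  obtain ⟨k, hk⟩ : ∃ k, Bal (Ed.biUnion W ∪ (CC T Nd ∪ col p)) k := by
    obtain ⟨k1, g1⟩ := (PM.biUnion Ed W (fun e he => (w1 e he).2.2.1) w2).bal
    have g2 := bal_biUnion_col (Nd.image T) (by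
      intro g hg g' hg' hne
      obtain ⟨a, -, rfl⟩ := mem_image.1 hg
      obtain ⟨a', -, rfl⟩ := mem_image.1 hg'
      exact disjoint_col.2 fun j h => hne (congrArg T (hT j h)))
    rw [image_biUnion] at g2
    exact ⟨_, g1.union (g2.union (bal_col p) dp) d0⟩
  set R := Ed.biUnion W ∪ (CC T Nd ∪ col p) with hR
  have c3 : R.card ≤ 5 * (2 * L * J.card) + 5 + w * (8 * L * J.card) := by
    have g1 := card_biUnion_le_card_mul Ed W w (fun e he => (w1 e he).1)
    have g2 := card_union_le (Ed.biUnion W) (CC T Nd ∪ col p)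
    rw [mul_comm] at g1
    rw [← hR] at g2
    omega
  have r1 : CC T Nd ⊆ R := subset_union_left.trans subset_union_right
  have r2 : col p ⊆ R := subset_union_right.trans subset_union_right
  refine ⟨R, c3, r2, disjoint_union_left.2 ⟨d00.mono_right subset_union_right,
    disjoint_union_left.2 ⟨(disjoint_biUnion_left _ _ _).2 fun a _ => hF a, hF'⟩⟩,
    fun Q κ q1 q2 q3 => ?_⟩
  obtain ⟨Y, y1, r, y2, y3, y4⟩ := almost hE (R := R ∪ Q) (by
    have := card_union_le R Q
    omega) (hk.union q2 q1.symm) X hX h5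
  set Lf := (univ \ (R ∪ Q)) \ Y with hLf
  have d2' : Disjoint Lf (R ∪ Q) := sdiff_disjoint.mono_left sdiff_subset
  have d2 : Disjoint Lf R := d2'.mono_right subset_union_left
  obtain ⟨A, hA, B, hB, hAB, v, f0, f1, f2⟩ := mergeg hT hJ r (h6 _ y4) Lf y3
    (p 3, p 4) (d2.mono_right (sq.trans r2)).symm (disjoint_union_left.2
      ⟨(dp.mono (CC_mono t1) sq).symm, d2.mono_right ((CC_mono t1).trans r1)⟩)
  change PM E ((qc p ∪ Lf ∪ (CP T A ∪ CQ T B)) \ cv v) at f2
  change cv v ⊆ qc p ∪ Lf ∪ (CP T A ∪ CQ T B) at f1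
  obtain ⟨Mt, m1, m2, m3, m4⟩ := t5 A hA B hB hAB
  have pp := absorb hT m1 t4
    (fun e he => ⟨(w1 e he).2.1.mono_right (subset_union_left.trans subset_union_left),
      (w1 e he).2.2⟩) w2 m4
  rw [m2, m3] at pp
  have s1 : CP T A ∪ CQ T B ⊆ CC T Nd := sub_CC (hA.trans t1) (hB.trans t1)
  have s3 : CP T (Nd \ A) ∪ CQ T (Nd \ B) ⊆ CC T Nd := sub_CC sdiff_subset sdiff_subset
  have s2 : Ed.biUnion W ∪ (CP T (Nd \ A) ∪ CQ T (Nd \ B)) ⊆ R :=
    union_subset_union_right (s3.trans subset_union_left)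
  have d3' : Disjoint Y (R ∪ Q) := sdiff_disjoint.mono_left y1
  have d3 : Disjoint Y R := d3'.mono_right subset_union_left
  have d4 : Disjoint (col p) (Ed.biUnion W ∪ (CP T (Nd \ A) ∪ CQ T (Nd \ B))) :=
    disjoint_union_right.2 ⟨(d0.mono_right subset_union_right).symm, (dp.mono_left s3).symm⟩
  have d5 : Disjoint (qc p ∪ Lf ∪ (CP T A ∪ CQ T B))
      (Ed.biUnion W ∪ (CP T (Nd \ A) ∪ CQ T (Nd \ B))) := disjoint_union_left.2
    ⟨disjoint_union_left.2 ⟨d4.mono_left sq, d2.mono_right s2⟩,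
      disjoint_union_right.2 ⟨(d1.mono_right s1).symm, disj_PQ hT disjoint_sdiff disjoint_sdiff⟩⟩
  have f3 : cv v ⊆ R := f0.trans (union_subset (sq.trans r2) ((CC_mono t1).trans r1))
  refine ⟨v, f3, ?_⟩
  have fin := y2.union (f2.union pp (d5.mono_left sdiff_subset)) (disjoint_union_right.2
    ⟨Disjoint.mono_right sdiff_subset (disjoint_union_right.2 ⟨disjoint_union_right.2
      ⟨d3.mono_right (sq.trans r2), disjoint_sdiff⟩,
      d3.mono_right (s1.trans r1)⟩), d3.mono_right s2⟩)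
  convert fin using 1
  refine Subset.antisymm (fun b hb => ?_) (subset_sdiff.2 ⟨subset_univ _, disjoint_union_right.2
    ⟨?_, disjoint_union_right.2 ⟨?_, ?_⟩⟩⟩)
  · have hb' := (mem_sdiff.1 hb).2
    rw [mem_union, mem_union, not_or, not_or] at hb'
    obtain ⟨hb0, hb1, hb2⟩ := hb'
    by_cases g0 : b ∈ col p
    · rw [col_eq, mem_union] at g0
      exact mem_union_right _ (mem_union_left _ (mem_sdiff.2
        ⟨mem_union_left _ (mem_union_left _ (g0.resolve_left hb1)), hb2⟩))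
    simp only [mem_union, mem_sdiff, hLf, hR, mem_univ, true_and, hb2, not_false_eq_true, and_true,
      mem_CP, mem_CQ, mem_CC, g0, hb0, or_false]
    by_cases g1 : ∃ a ∈ Nd, T a b.1 = b.2
    · obtain ⟨a, g2, g3⟩ := g1
      by_cases g4 : b.1.val < 3
      · by_cases g5 : a ∈ A
        · exact Or.inr (Or.inl (Or.inr (Or.inl ⟨g4, a, g5, g3⟩)))
        · exact Or.inr (Or.inr (Or.inr (Or.inl ⟨g4, a, ⟨g2, g5⟩, g3⟩)))
      · by_cases g5 : a ∈ B
        · exact Or.inr (Or.inl (Or.inr (Or.inr ⟨by omega, a, g5, g3⟩)))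
        · exact Or.inr (Or.inr (Or.inr (Or.inr ⟨by omega, a, ⟨g2, g5⟩, g3⟩)))
    · by_cases g2 : b ∈ Y
      · exact Or.inl g2
      by_cases g3 : b ∈ Ed.biUnion W
      · exact Or.inr (Or.inr (Or.inl g3))
      · exact Or.inr (Or.inl (Or.inl (Or.inr ⟨fun h => h.elim g3 g1, g2⟩)))
  · exact disjoint_union_left.2 ⟨d3'.mono_right subset_union_right, disjoint_union_left.2
      ⟨Disjoint.mono_left sdiff_subset (disjoint_union_left.2 ⟨disjoint_union_left.2
        ⟨q1.symm.mono_left (sq.trans r2), d2'.mono_right subset_union_right⟩,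
        q1.symm.mono_left (s1.trans r1)⟩), q1.symm.mono_left s2⟩⟩
  · exact disjoint_union_left.2 ⟨d3.mono_right (sp.trans r2), disjoint_union_left.2
      ⟨Disjoint.mono_left sdiff_subset (disjoint_union_left.2 ⟨disjoint_union_left.2
        ⟨(disj_pq p p).symm, d2.mono_right (sp.trans r2)⟩, dp.mono s1 sp⟩),
        (d4.mono_left sp).symm⟩⟩
  · exact disjoint_union_left.2 ⟨d3.mono_right f3, disjoint_union_left.2
      ⟨sdiff_disjoint, (d5.mono_left f1).symm⟩⟩

theorem prep6 : ∃ C : ℕ, ∀ (α : Type) [Fintype α] [DecidableEq α] (Y l : ℕ), 1 ≤ Y →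
    l = Nat.log 2 (Fintype.card α) + 1 → C * l ^ 735 * Y ^ 480 ≤ Fintype.card α →
    ∀ E : (Fin 5 → α) → Prop, Lat E → ∀ F : Finset (Col α), F.card ^ 2 ≤ Fintype.card α →
      ∃ (p : Fin 5 → α) (R : Finset (Col α)),
      1000 * (Y ^ 2 * R.card) ≤ Fintype.card α ∧ col p ⊆ R ∧ Disjoint R F ∧ Cmp5 E p R := by
  obtain ⟨J, hJ⟩ : ∃ J : ℕ, 6400000 ≤ J := ⟨_, le_rfl⟩
  obtain ⟨c, hc⟩ : ∃ c : ℕ, c = 4 ^ (J ^ 2) := ⟨_, rfl⟩
  have hc1 : J ^ 2 ≤ c := hc ▸ (Nat.lt_pow_self (by norm_num)).le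
  have hc2 : 4000 ≤ c := by nlinarith
  refine ⟨10 ^ 17 * (46080 * 12 * 4240 ^ 16 * (2 * c) ^ 32) ^ 15,
    fun α _ _ Y l hY hl h0 E hE F hF => ?_⟩
  set n := Fintype.card α with hn'
  have hl1 : 1 ≤ l := by omega
  have hl2 : n < 2 ^ l := hl ▸ Nat.lt_pow_succ_log_self (by norm_num) n
  obtain ⟨t, ht⟩ : ∃ t, t = c * (2 * l) := ⟨_, rfl⟩
  obtain ⟨k, hk⟩ : ∃ k, k = 4240 * l * t ^ 2 * Y ^ 2 := ⟨_, rfl⟩
  obtain ⟨M, hM⟩ : ∃ M, M = 12 * l * k ^ 16 := ⟨_, rfl⟩
  have h1 : 10 ^ 17 * (46080 * M) ^ 15 ≤ n := by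
    have : 46080 * M = 46080 * 12 * 4240 ^ 16 * (2 * c) ^ 32 * l ^ 49 * Y ^ 32 := by
      rw [hM, hk, ht]; ring
    rw [this, mul_pow _ (Y ^ 32), mul_pow _ (l ^ 49), ← pow_mul, ← pow_mul, ← mul_assoc,
      ← mul_assoc]
    exact h0
  clear h0
  have hY2 : 1 ≤ Y ^ 2 := Nat.one_le_pow _ _ hY
  have ht1 : c ≤ t := ht ▸ Nat.le_mul_of_pos_right _ (by omega)
  have ht3 : t ≤ t ^ 2 := Nat.le_self_pow (by norm_num) t
  have hk0 : 4240 * l * t ^ 2 ≤ k := hk ▸ Nat.le_mul_of_pos_right _ hY2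
  have hk1 : 4240 * t ^ 2 ≤ k := le_trans (by gcongr; exact Nat.le_mul_of_pos_right _ hl1) hk0
  have hk2 : 2 * l ≤ k := le_trans (by nlinarith) hk0
  have hk4 : 10000 * Y ^ 2 ≤ k := by
    rw [hk]
    exact Nat.mul_le_mul_right _ (by nlinarith)
  have hM1 : k ^ 16 ≤ M := hM ▸ Nat.le_mul_of_pos_left _ (by omega)
  have hk3 : k ≤ k ^ 16 := Nat.le_self_pow (by norm_num) _
  have hM2 : 46080 * M ≤ n := by
    have := Nat.le_self_pow (n := 15) (by norm_num) (46080 * M)
    omega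
  have : Nonempty α := Fintype.card_pos_iff.1 (by omega)
  have hF1 : 60 * t * F.card ≤ n := by
    refine (Nat.pow_le_pow_iff_left (n := 2) (by norm_num)).1 ?_
    rw [mul_pow, mul_pow, sq n]
    exact Nat.mul_le_mul (by omega) hF
  have hF2 : 4000 * F.card ≤ t * F.card := Nat.mul_le_mul_right _ (by omega)
  rw [mul_assoc] at hF1
  obtain ⟨o, -, ho⟩ := exists_mem_notMem_of_card_lt_card (s := F.image Prod.snd) (t := univ)
    (card_image_le.trans_lt (by rw [card_univ]; omega))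
  obtain ⟨β, hβ'⟩ : ∃ β, β = n / (20 * t) := ⟨_, rfl⟩
  have hβ : β * (20 * t) ≤ n := hβ' ▸ Nat.div_mul_le_self _ _
  obtain ⟨m, hm, T, hT, hA⟩ := exists_frame hE J (2 * l) t β (by omega) hJ (by omega)
    (by rw [ht, hc]) (by
      have h2 : Real.log n ≤ Real.log (2 ^ l) :=
        Real.log_le_log (by exact_mod_cast (by omega : 0 < n)) (by exact_mod_cast hl2.le)
      rw [Real.log_pow] at h2
      have h3 := mul_le_mul_of_nonneg_left Real.log_two_lt_d9.le (Nat.cast_nonneg (α := ℝ) l)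
      have h4 : (0 : ℝ) ≤ l := Nat.cast_nonneg _
      push_cast
      linarith) (by
      calc (5 * t ^ 2 * J ^ 2) ^ 2 ≤ (k * k) ^ 2 := by
            refine Nat.pow_le_pow_left (Nat.mul_le_mul (by omega) ?_) _
            omega
        _ = k ^ 4 := by ring
        _ ≤ k ^ 16 := Nat.pow_le_pow_right (by omega) (by norm_num)
        _ ≤ n := by omega) (by nlinarith)
  have hm1 : m ≤ n := by simpa using Fintype.card_le_of_injective _ (hT 0)
  set p : Fin 5 → α := fun _ => o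
  set T' : {a : Fin m // Disjoint (col (T a)) (col p ∪ F)} → Fin 5 → α := fun a => T a.1 with hT'
  have hT1 : ∀ j, Function.Injective (fun a => T' a j) := fun j a b h => Subtype.ext (hT j h)
  obtain ⟨m', hm'⟩ : ∃ m', m' = Fintype.card {a : Fin m // Disjoint (col (T a)) (col p ∪ F)} :=
    ⟨_, rfl⟩
  have hm2 : m' ≤ m ∧ m ≤ m' + (5 + F.card) := by
    have g1 := (card_hit hT (col p ∪ F)).trans (card_union_le _ _)
    have g2 := card_filter_add_card_filter_not (s := (univ : Finset (Fin m)))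
      (fun a => Disjoint (col (T a)) (col p ∪ F))
    rw [card_col] at g1
    rw [card_univ, Fintype.card_fin, ← Fintype.card_subtype, ← hm'] at g2
    omega
  have hG : n / (480 * M) * (480 * M) ≤ n := Nat.div_mul_le_self _ _
  obtain ⟨S, hS1, hS2⟩ := exists_resh hE hT1 (by rw [← hm']; omega) (n / (480 * M)) M k l
    (by omega) hl1 (by omega) hl2 hM (by
      have : n / (480 * M) * (480 * M) = 480 * (n / (480 * M) * M) := by ring
      omega)
  have : Nonempty {a : Fin m // Disjoint (col (T a)) (col p ∪ F)} :=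
    Fintype.card_pos_iff.1 (by omega)
  have g1 : 26 + 80 * t ≤ 106 * t := by omega
  have g2 : (26 + 80 * t) * (20 * t * l * S.card) ≤ 106 * t * (20 * t * l * S.card) :=
    Nat.mul_le_mul_right _ g1
  have g3 : 2 * (106 * t * (20 * t * l * S.card)) * Y ^ 2 = k * S.card := by rw [hk]; ring
  have g4 : (5 * (2 * l * S.card) + 5 + (10 * t + 2) * (8 * l * S.card)) * (20 * t)
      = (26 + 80 * t) * (20 * t * l * S.card) + 100 * t := by ring
  have g5 := Nat.le_mul_of_pos_right (2 * (106 * t * (20 * t * l * S.card))) hY2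
  obtain ⟨R, r1, r2, r3⟩ := assemble4 hE hT1 p
    (fun a => disjoint_col.1 (a.2.mono_right subset_union_left)) F
    (fun a => a.2.mono_right subset_union_right) (disjoint_left.2 fun x hx hx' =>
      ho (mem_image.2 ⟨x, hx', (mem_col.1 hx).symm⟩))
    (fun a b => hA a.1 b.1) hS2 hl1 (by have := card_le_univ S; omega)
    ((Nat.mul_le_mul_right _ hk2).trans hS1) (by
      rw [hβ', Nat.le_div_iff_mul_le (by omega), add_mul,
        show F.card * (20 * t) = 20 * (t * F.card) by ring]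
      omega) (by nlinarith) (X := 46080 * M) (by omega) h1 (by
      intro r hr
      rw [Nat.le_div_iff_mul_le (by omega)]
      nlinarith)
  refine ⟨p, R, ?_, r2, r3⟩
  have g6 : R.card * (20 * t) * Y ^ 2 ≤ (106 * t * (20 * t * l * S.card) + 100 * t) * Y ^ 2 :=
    Nat.mul_le_mul_right _ ((Nat.mul_le_mul_right _ r1).trans (by omega))
  have g7 : 100 * t * Y ^ 2 ≤ k := by
    rw [hk]
    exact Nat.mul_le_mul_right _ (by nlinarith)
  have g8 : R.card * 80000 * Y ^ 2 ≤ R.card * (20 * t) * Y ^ 2 := by gcongr; omega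
  rw [add_mul, ← hm'] at *
  nlinarith

end Pool.Agent.Lib.MP_356f68_co.Cube
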