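import Mathlib
import Pool.Agent.Lib.MP_356f68_co.Win.Main

/-! The completion lemma for squares, with a reservoir that avoids a prescribed set. -/

set_option autoImplicit false
set_option linter.unusedSectionVars false
set_option linter.unnecessarySeqFocus false

namespace Pool.Agent.Lib.MP_356f68_co.Win

open Finset Function Pool.Agent.Lib.MP_356f68_co.Cube Pool.Agent.Lib.MP_901e0d_co.Rbs

theorem prep3 : ∃ C : ℕ, ∀ (α : Type) [Fintype α] [DecidableEq α] (Y l : ℕ), 1 ≤ Y →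
    l = Nat.log 2 (Fintype.card α) + 1 → C * l ^ 605 * Y ^ 396 ≤ Fintype.card α →
    ∀ (E : (Fin 3 → α) → Prop), Dn E univ 0 → ∀ F : Finset (Vx α),
    F.card ^ 2 ≤ Fintype.card α → ∃ (s : α) (R : Finset (Vx α)), (1, s) ∈ R ∧
      1000 * (Y ^ 2 * R.card) ≤ 2 * Fintype.card α ∧ Disjoint R F ∧
      ∀ (Q : Finset (Vx α)) (m : ℕ), F ⊆ Q → (∀ j, sz Q j = m) → Disjoint Q R →
        2000 * Q.card ≤ Fintype.card α →
        ∃ y y', lf y y' ⊆ R ∧ PM3 E (univ \ (Q ∪ tri ![y, s, y'])) := by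
  obtain ⟨C, hC⟩ := prep2
  obtain ⟨p, hp⟩ : ∃ p : ℕ, p = 396 := ⟨_, rfl⟩
  obtain ⟨p', hp'⟩ : ∃ p : ℕ, p = 605 := ⟨_, rfl⟩
  rw [← hp, ← hp'] at hC ⊢
  refine ⟨C + 10 ^ 10, fun α _ _ Y l hY hl hn E hE F hF => ?_⟩
  set n := Fintype.card α with hn'
  have t1 : 10 ^ 10 * Y ^ 2 ≤ n := by
    refine le_trans ?_ hn
    exact Nat.mul_le_mul (le_trans (by omega) (Nat.le_mul_of_pos_right _
      (Nat.pow_pos (by omega)))) (Nat.pow_le_pow_right hY (by omega))
  have t2 : 1 ≤ Y ^ 2 := Nat.one_le_pow _ _ hY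
  have t3 : 40000 * F.card ≤ n := by
    refine (Nat.pow_le_pow_iff_left (n := 2) (by norm_num)).1 ?_
    rw [mul_pow, sq n]
    exact Nat.mul_le_mul (by omega) hF
  obtain ⟨s0, -, hs⟩ := exists_mem_notMem_of_card_lt_card (s := F.image Prod.snd) (t := univ)
    (card_image_le.trans_lt (by rw [card_univ]; omega))
  set U : Finset (Vx α) := univ \ insert (1, s0) F with hU
  obtain ⟨Ar, J, R, G, a1, r1, r2, r0, ⟨ρ, r3⟩, r4, k1, r6⟩ := hC α Y l hY hl
    (le_trans (by gcongr; omega) hn) _ U _ (hE.restrict (subset_univ U)) (by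
      rw [hU, sdiff_sdiff_right_self, inf_eq_inter, univ_inter]
      have := card_insert_le (1, s0) F
      omega)
  have c3 : R.card ≤ Y ^ 2 * R.card := Nat.le_mul_of_pos_left _ t2
  have r7 := (subset_sdiff.1 r1).2
  rw [disjoint_insert_right] at r7
  refine ⟨s0, insert (1, s0) R, mem_insert_self _ _, ?_, disjoint_insert_left.2
    ⟨fun e => hs (mem_image_of_mem Prod.snd e), r7.2⟩, fun Q κ q1 hκ l2 q2 => ?_⟩
  · have := Nat.mul_le_mul_left (Y ^ 2) (card_insert_le (1, s0) R)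
    rw [mul_add_one] at this
    omega
  rw [disjoint_insert_right] at l2
  obtain ⟨Cl, hCl⟩ : ∃ Cl, Cl = Q \ F := ⟨_, rfl⟩
  have l0 : U \ Cl = univ \ insert (1, s0) Q := by
    ext b
    have := @q1 b
    simp only [hU, hCl, mem_sdiff, mem_insert, mem_univ, true_and]
    tauto
  have l1 : Cl.card ≤ Q.card := hCl ▸ card_le_card sdiff_subset
  have l6 : R ⊆ U \ Cl := subset_sdiff.2 ⟨r1, hCl ▸ l2.2.symm.mono_right sdiff_subset⟩
  have u2 : ∀ j, sz ((U \ Cl) \ R) j + ρ + κ = n - 1 + ![1, 0, 1] j := fun j => by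
    have g1 := sz_sdiff (subset_univ (insert (1, s0) Q)) j
    rw [← l0, insert_eq, sz_union (disjoint_singleton_left.2 l2.1), sz_single, hκ, sz_eq univ,
      ← sz_sdiff l6, r3] at g1
    simp only [mem_univ, filter_true, card_univ, ← hn'] at g1
    fin_cases j <;> simp at g1 ⊢ <;> omega
  have u3 : ρ ≤ R.card := r3 0 ▸ sz_le_card R 0
  have u4 : κ ≤ Q.card := hκ 0 ▸ sz_le_card Q 0
  choose u hu using fun j => exists_of_sz (U := (U \ Cl) \ R) (j := j) (by have := u2 j; omega)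
  have hu' : tri u ⊆ (U \ Cl) \ R := fun b hb => by
    have := hu b.1
    rwa [mem_tri.1 hb] at this
  choose v hv using fun j => exists_of_sz (U := ((U \ Cl) \ R) \ tri u) (j := j) (by
    have := sz_sdiff hu' j; have := u2 j; have := sz_tri u j; omega)
  have z0 : lf (v 0) (v 2) ⊆ ((U \ Cl) \ R) \ tri u := by
    simp only [lf, insert_subset_iff, hv]; simp [hv]
  have z1 : lf (v 0) (v 2) ∪ tri u ⊆ (U \ Cl) \ R := union_subset (z0.trans sdiff_subset) hu'
  have z2 : ∀ j, sz (lf (v 0) (v 2) ∪ tri u) j = 1 + ![1, 0, 1] j := fun j => by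
    rw [sz_union (sdiff_disjoint.mono_left z0), sz_tri, sz_lf, add_comm]
  set Z := lf (v 0) (v 2) ∪ tri u
  have e0 := part' U R Cl Z
  obtain ⟨Y, y1, r, y2, y3, y4⟩ := r6 (Cl ∪ Z) (by
      have g1 := card_union_le Cl Z
      have g2 : Z.card ≤ 5 := by simp [card_sz, z2]
      omega) (n - 1 - ρ - κ - 1) (fun j => by
    have g1 := sz_sdiff z1 j; have g2 := u2 j
    rw [z2] at g1; rw [e0]
    omega)
  rw [e0] at y1 y3
  have z3 : Disjoint ((((U \ Cl) \ R) \ Z) \ Y) Z := sdiff_disjoint.mono_left sdiff_subset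
  have z4 : (((U \ Cl) \ R) \ Z) \ Y ∪ Z ⊆ (U \ Cl) \ R :=
    union_subset (sdiff_subset.trans sdiff_subset) z1
  have z5 : ∀ j, sz ((((U \ Cl) \ R) \ Z) \ Y ∪ Z) j = r + 1 + ![1, 0, 1] j := fun j => by
    rw [sz_union z3, y3, z2, add_assoc]
  obtain ⟨K, g1, -, y, y', g2, g3, g4⟩ := merge3 (D := univ.filter (fun a => (0, a) ∉ AV J))
    (D' := univ.filter (fun a => (2, a) ∉ AV J)) a1 (r2.trans r1) (fun z z' u h1 h2 Us hUs => by
      obtain ⟨K, f1, f2, f3, y, -, y', -, f4, f5⟩ := k1 z z' u h1 h2 Us hUs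
      exact ⟨K, f1, f2, f3, y, by simpa using AV_mono f1 (f4 (by simp [lf])), y',
        by simpa using AV_mono f1 (f4 (by simp [lf])), f4, f5⟩) (r + 1) y4 _
    (z4.trans (sdiff_subset.trans sdiff_subset)) z5 (sdiff_disjoint.mono z4 r2)
  obtain ⟨-, g6⟩ := last_glue l6 ((AV_mono g1).trans r2) z1 y1 (r4 K g1 fun j => by
    obtain ⟨s, hs⟩ := g4.bal
    have g7 := fun j => sz_sdiff g3 j
    simp only [hs, sz_lf, sz_union (sdiff_disjoint.mono z4 ((AV_mono g1).trans r2)), z5] at g7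
    have g8 := g7 0
    have g9 := g7 j
    fin_cases j <;> simp at g8 g9 ⊢ <;> omega) y2 g3 g4
  have g7 : PM3 E ((U \ Cl) \ lf y y') := g6.mono fun g h _ => h.1
  refine ⟨y, y', Subset.trans ?_ (r2.trans (subset_insert _ _)), ?_⟩
  · simpa [lf, insert_subset_iff] using g2 (by omega)
  · rw [l0, sdiff_sdiff_left, sup_eq_union, insert_union_comm] at g7
    rwa [tri_eq, insert_comm]

end Pool.Agent.Lib.MP_356f68_co.Win
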