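import Mathlib
import Pool.Agent.Lib.MP_356f68_co.Hyp.Lift
import Pool.Agent.Lib.MP_356f68_co.Rob.Prep
import Pool.Agent.Lib.MP_356f68_co.Rob.Three

/-! The completion lemma in every dimension, after deleting a small balanced set. -/

set_option autoImplicit false
set_option linter.unusedSectionVars false

namespace Pool.Agent.Lib.MP_356f68_co.Hyp

open Finset Function Pool.Agent.Lib.MP_356f68_co.Cube

section

variable {κ α : Type} [Fintype κ] [DecidableEq κ] [Fintype α] [DecidableEq α]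
  {E : (κ → α) → Prop} {π : κ → Fin 5} {σ : Fin 5 → κ}

/-- after deleting a small balanced set everything but one tuple of `R` can be matched -/
def CmpB (E : (κ → α) → Prop) (a b : κ) (F : Finset (κ × α)) (p : κ → α) (R : Finset (κ × α)) :
    Prop :=
  ∀ (Q : Finset (κ × α)) (m : ℕ), F ⊆ Q → (∀ j, sz Q j = m) → Disjoint Q R →
    1000 * (Fintype.card κ * Q.card) ≤ Fintype.card α →
    ∃ u, lf a b u ⊆ R ∧ PK E (univ \ (Q ∪ cl (u2 a b p u)))

theorem cmp_liftB (hE : LK E) (h1 : ∀ i, i ≠ 0 → π (σ i) = i) (h2 : ∀ j, π j ≠ 0 → σ (π j) = j)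
    {p : Fin 5 → α} {R : Finset (Col α)} (hp : col p ⊆ R)
    (hR : 10 * (Fintype.card κ * R.card) ≤ Fintype.card α)
    (h : Cmp5 (fun g => E (g ∘ π)) p R) (F : Finset (κ × α)) :
    CmpB E (σ 3) (σ 4) F (p ∘ π) (lift π R) := by
  intro Cl m _ hm c2 c3
  have s3 := h1 3 (by decide)
  have s4 := h1 4 (by decide)
  have hab : σ 3 ≠ σ 4 := fun e => by rw [e, s4] at s3; exact absurd s3 (by decide)
  have k1 : 1 ≤ Fintype.card κ := Fintype.card_pos_iff.2 ⟨σ 0⟩
  have n1 : 1 ≤ Fintype.card α := Fintype.card_pos_iff.2 ⟨p 0⟩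
  have k2 : Cl.card ≤ Fintype.card κ * Cl.card := Nat.le_mul_of_pos_left _ k1
  have k3 : R.card ≤ Fintype.card κ * R.card := Nat.le_mul_of_pos_left _ k1
  have m1 : m ≤ Cl.card := hm (σ 0) ▸ card_filter_le _ _
  obtain ⟨Br, b1, b2, b3⟩ := exists_subsuperset_card_eq (n := Cl.card)
    (s := (Cl.filter (fun x => π x.1 = 0)).image Prod.snd)
    (t := univ \ (R.filter (fun y => y.1 = 0)).image Prod.snd) (fun t ht => by
      obtain ⟨x, hx, rfl⟩ := mem_image.1 ht
      refine mem_sdiff.2 ⟨mem_univ _, fun hy => ?_⟩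
      obtain ⟨y, hy, e⟩ := mem_image.1 hy
      refine disjoint_left.1 c2 (mem_filter.1 hx).1 (mem_lift.2 ?_)
      rw [(mem_filter.1 hx).2, ← e, ← (mem_filter.1 hy).2]
      exact (mem_filter.1 hy).1) (card_image_le.trans (card_filter_le _ _)) (by
      have := (card_image_le (s := R.filter (fun y => y.1 = 0)) (f := Prod.snd)).trans
        (card_filter_le _ _)
      rw [card_univ_sdiff]
      omega)
  have b4 : ∀ t ∈ Br, ((0 : Fin 5), t) ∉ R := fun t ht hR =>
    (mem_sdiff.1 (b2 ht)).2 (mem_image.2 ⟨_, mem_filter.2 ⟨hR, rfl⟩, rfl⟩)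
  have b5 : ∀ x ∈ Cl, π x.1 = 0 → x.2 ∈ Br := fun x hx e =>
    b1 (mem_image_of_mem _ (mem_filter.2 ⟨hx, e⟩))
  obtain ⟨N, g1, g2, g3, g4⟩ := cover_rest hE hab (fun j => π j = 0) (by simp [s3]) (by simp [s4])
    (Cl.card - m) (univ.filter (fun x => π x.1 = 0 ∧ x.2 ∈ Br ∧ x ∉ Cl)) (Cl ∪ lift π R)
    (fun j hj => by
      rw [sz_eq, ← b3, ← hm j, sz_eq, ← card_sdiff_of_subset
        (fun t ht => b5 _ (mem_filter.1 ht).2 hj)]
      congr 1
      ext t
      simp [hj]) (disjoint_left.2 fun x hx hx' => by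
      obtain ⟨-, e1, e2, e3⟩ := mem_filter.1 hx
      exact (mem_union.1 hx').elim e3 fun e => b4 _ e2 (e1 ▸ mem_lift.1 e)) (by
      have := card_union_le Cl (lift π R)
      have := card_lift (π := π) R
      have := Nat.mul_le_mul_left (Fintype.card κ) (Nat.sub_le Cl.card m)
      omega)
  rw [disjoint_union_right] at g2
  set Q : Finset (Col α) :=
    univ.filter (fun y => if y.1 = 0 then y.2 ∈ Br else (σ y.1, y.2) ∈ Cl ∪ N) with hQ
  have q1 : lift π Q = Cl ∪ N := by
    ext x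
    simp only [mem_lift, hQ, mem_filter, mem_univ, true_and]
    split_ifs with e
    · rw [mem_union, g3 x e]
      simp only [mem_filter, mem_univ, true_and, e]
      have := b5 x
      tauto
    · rw [h2 _ e]
  have q2 : Bal Q Cl.card := fun i => by
    change sz Q i = _
    rw [sz_eq]
    by_cases e : i = 0
    · simp [hQ, e, b3]
    · simp only [hQ, mem_filter, mem_univ, true_and, if_neg e]
      rw [← sz_eq, sz_union g2.1.symm, hm, g4]
      omega
  obtain ⟨v, v1, v2⟩ := h Q _ (disjoint_left.2 fun y hy hR => by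
      have := (mem_filter.1 hy).2
      split_ifs at this with e
      · exact b4 _ this (e ▸ hR)
      · exact disjoint_left.1 (disjoint_union_left.2 ⟨c2, g2.2⟩) this
          (mem_lift.2 (by rwa [h1 _ e]))) q2 (by rw [q2.card]; omega)
  have q3 : lift π (pc p ∪ cv v) = cl (u2 (σ 3) (σ 4) (p ∘ π) v) := by
    ext ⟨j, t⟩
    rw [pc, ← col_mk, mem_lift, mem_col, mem_cl]
    refine Eq.congr_left ?_
    by_cases j3 : j = σ 3
    · simp only [j3, s3, u2_a hab]; rfl
    by_cases j4 : j = σ 4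
    · simp only [j4, s4, u2_b]; rfl
    · have e3 : π j ≠ 3 := fun e => j3 (by rw [← e, h2 j (by simp [e])])
      have e4 : π j ≠ 4 := fun e => j4 (by rw [← e, h2 j (by simp [e])])
      simp only [u2_o j3 j4, comp_apply]
      generalize π j = i at e3 e4
      fin_cases i <;> first | rfl | contradiction
  have q4 : cl (u2 (σ 3) (σ 4) (p ∘ π) v) ⊆ lift π R := q3 ▸ fun x hx => mem_lift.2
    (union_subset (subset_union_left.trans (col_eq p ▸ hp)) v1 (mem_lift.1 hx))
  refine ⟨v, subset_union_right.trans (cl_u2 hab _ v ▸ q4), ?_⟩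
  have q5 : lift π (univ \ (Q ∪ (pc p ∪ cv v)))
      = univ \ (Cl ∪ N ∪ cl (u2 (σ 3) (σ 4) (p ∘ π) v)) := by
    rw [← q1, ← q3]
    ext x
    simp only [mem_lift, mem_sdiff, mem_union, mem_univ]
  have q6 := g1.union (q5 ▸ pm_lift v2) (disjoint_sdiff.mono_left
    (subset_union_right.trans subset_union_left))
  convert q6 using 1
  ext x
  have e1 : x ∈ N → x ∉ Cl := fun h => disjoint_left.1 g2.1 h
  have e2 : x ∈ N → x ∉ cl (u2 (σ 3) (σ 4) (p ∘ π) v) := fun h =>
    disjoint_left.1 (g2.2.mono_right q4) h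
  simp only [mem_sdiff, mem_union, mem_univ, true_and]
  tauto

end

/-- the completion lemma for `K` classes -/
def PrepK (K C p' p : ℕ) : Prop :=
  ∀ (κ α : Type) [Fintype κ] [DecidableEq κ] [Fintype α] [DecidableEq α] (Y l : ℕ),
    Fintype.card κ = K → 10 ≤ Y → l = Nat.log 2 (Fintype.card α) + 1 →
    C * l ^ p' * Y ^ p ≤ Fintype.card α → ∀ E : (κ → α) → Prop, LK E → ∀ a b : κ, a ≠ b →
    K ≤ Y → ∀ F : Finset (κ × α), F.card ^ 2 ≤ Fintype.card α →
    ∃ (q : κ → α) (R : Finset (κ × α)), 1000 * (Y ^ 2 * R.card) ≤ K * Fintype.card α ∧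
      Disjoint R F ∧ off a b q ⊆ R ∧ CmpB E a b F q R

theorem prepK4 {K : ℕ} (hK : 4 ≤ K) : ∃ C, PrepK K C 735 480 := by
  obtain ⟨C, hC⟩ := prep6
  refine ⟨C, fun κ α _ _ _ _ Y l h1 h2 h3 h4 E hE a b hab hY F hF => ?_⟩
  obtain ⟨k, -, hk⟩ := exists_mem_notMem_of_card_lt_card (s := {a, b}) (t := univ)
    (card_le_two.trans_lt (by rw [card_univ]; omega))
  obtain ⟨e, -, he⟩ := exists_mem_notMem_of_card_lt_card (s := {a, b, k}) (t := univ)
    (card_le_three.trans_lt (by rw [card_univ]; omega))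
  simp only [mem_insert, mem_singleton, not_or] at hk he
  let π : κ → Fin 5 := fun j =>
    if j = a then 3 else if j = b then 4 else if j = k then 2 else if j = e then 1 else 0
  let σ : Fin 5 → κ := ![e, e, k, a, b]
  have s1 : ∀ i, i ≠ 0 → π (σ i) = i := fun i hi => by
    fin_cases i
    · exact absurd rfl hi
    all_goals simp [π, σ, hab.symm, hk, he]
  have s2 : ∀ j, π j ≠ 0 → σ (π j) = j := fun j hj => by
    simp only [π] at hj ⊢
    split_ifs at hj ⊢ with e1 e2 e3 e4
    exacts [e1.symm, e2.symm, e3.symm, e4.symm, absurd rfl hj]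
  obtain ⟨q, S, r1, r2, r3, r4⟩ := hC α Y l (by omega) h3 h4 _ (lat_slice hE s1 s2)
    (F.image (fun x => (π x.1, x.2))) ((Nat.pow_le_pow_left card_image_le _).trans hF)
  have c0 := card_lift (π := π) S
  rw [h1] at c0
  refine ⟨q ∘ π, lift π S, ?_, disjoint_left.2 fun x hx hx' => disjoint_left.1 r3 (mem_lift.1 hx)
    (mem_image_of_mem _ hx'), (filter_subset _ _).trans
    fun x hx => mem_lift.2 (r2 (mem_col.2 (mem_cl.1 hx :))), cmp_liftB hE s1 s2 r2 ?_ r4 F⟩
  · calc _ ≤ 1000 * (Y ^ 2 * (K * S.card)) := by gcongr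
      _ = K * (1000 * (Y ^ 2 * S.card)) := by ring
      _ ≤ _ := Nat.mul_le_mul_left _ r1
  · have : K * S.card ≤ Y ^ 2 * S.card :=
      Nat.mul_le_mul_right _ (hY.trans (Nat.le_self_pow (by norm_num) _))
    rw [h1]
    omega

open Pool.Agent.Lib.MP_901e0d_co in
theorem prepK3 : ∃ C, PrepK 3 C 605 396 := by
  obtain ⟨C, hC⟩ := Win.prep3
  refine ⟨C, fun κ α _ _ _ _ Y l h1 h2 h3 h4 E hE a b hab hY F hF => ?_⟩
  obtain ⟨k, -, hk⟩ := exists_mem_notMem_of_card_lt_card (s := {a, b}) (t := univ)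
    (card_le_two.trans_lt (by rw [card_univ]; omega))
  simp only [mem_insert, mem_singleton, not_or] at hk
  have h5 : ∀ j, j = a ∨ j = b ∨ j = k := fun j => by
    simpa using eq_univ_iff_forall.1 (eq_univ_of_card _ ((card_eq_three.2
      ⟨a, b, k, hab, Ne.symm hk.1, Ne.symm hk.2, rfl⟩).trans h1.symm)) j
  let π : κ → Fin 3 := fun j => if j = a then 0 else if j = b then 2 else 1
  let σ : Fin 3 → κ := ![a, k, b]
  have s1 : ∀ i, π (σ i) = i := fun i => by fin_cases i <;> simp [π, σ, hab.symm, hk]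
  have s2 : ∀ j, σ (π j) = j := fun j => by
    rcases h5 j with rfl | rfl | rfl <;> simp [π, σ, hab.symm, hk]
  have hE3 : LK (fun g : Fin 3 → α => E (g ∘ π)) := fun i g => by
    have : ∀ t, update g i t ∘ π = update (g ∘ π) (σ i) t := fun t => by
      funext j
      by_cases h : π j = i
      · rw [comp_apply, h, update_self, ← s2 j, h, update_self]
      · rw [comp_apply, update_of_ne h, update_of_ne (fun e => h (by rw [e, s1 i])), comp_apply]
    simp only [this]
    exact hE _ _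
  let dn : Finset (κ × α) → Finset (Fin 3 × α) := fun Q => univ.filter (fun y => (σ y.1, y.2) ∈ Q)
  let up : Finset (Fin 3 × α) → Finset (κ × α) := fun U => univ.filter (fun x => (π x.1, x.2) ∈ U)
  have d1 : ∀ Q, (dn Q).card ≤ Q.card := fun Q => card_le_card_of_injOn (fun y => (σ y.1, y.2))
    (fun y hy => (mem_filter.1 hy).2) fun y _ y' _ e => Prod.ext
      (LeftInverse.injective s1 (congrArg Prod.fst e)) (congrArg Prod.snd e :)
  have d2 : ∀ U, (up U).card ≤ U.card := fun U => card_le_card_of_injOn (fun x => (π x.1, x.2))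
    (fun y hy => (mem_filter.1 hy).2) fun y _ y' _ e => Prod.ext
      (LeftInverse.injective s2 (congrArg Prod.fst e)) (congrArg Prod.snd e :)
  obtain ⟨s, R, r1, r2, r3, r4⟩ := hC α Y l (by omega) h3 h4 (fun g => E (g ∘ π))
    ⟨fun g g' e e' i hi => by
      have e1 : g' = update g i (g' i) := funext fun j => by
        by_cases h : j = i
        · rw [h, update_self]
        · rw [update_of_ne h, hi j h]
      have e2 : g' i = g i := (hE3 i g).unique (by rw [← e1]; exact e') (by rwa [update_eq_self])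
      rw [e1, e2, update_eq_self],
    fun _ _ => subset_univ _, fun _ => ⟨∅, by simp, by simp⟩, fun x _ j hj => ⟨∅, by simp,
      fun t _ => by
        obtain ⟨i, i1, i2⟩ := (by decide : ∀ i j : Fin 3, ∃ k, k ≠ i ∧ k ≠ j) x.1 j
        exact ⟨_, sol_spec hE3 i (update (fun _ => x.2) j t), by
          rw [update_of_ne i1.symm, update_of_ne hj.symm], by
          rw [update_of_ne i2.symm, update_self]⟩⟩⟩ (dn F)
    ((Nat.pow_le_pow_left (d1 F) _).trans hF)
  refine ⟨fun _ => s, up R, ?_, disjoint_left.2 fun x hx hx' => disjoint_left.1 r3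
    (mem_filter.1 hx).2 (by simpa [dn, s2] using hx'), fun x hx => ?_,
    fun Q m q1 q2 q3 q4 => ?_⟩
  · have := Nat.mul_le_mul_left (Y ^ 2) (d2 R)
    omega
  · obtain ⟨e1, e2, e3⟩ := mem_off.1 hx
    simpa [up, π, e2, e3, ← e1] using r1
  obtain ⟨y, y', g1, M, g2, g3, g4⟩ := r4 (dn Q) m (fun y hy => by
      simpa [dn] using q1 (mem_filter.1 hy).2) (fun i => by
      rw [Rbs.sz_eq, ← q2 (σ i), sz_eq]; simp [dn]) (disjoint_left.2 fun y hy hy' =>
      disjoint_left.1 q3 (mem_filter.1 hy).2 (by simpa [up, s1] using hy')) (by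
      have := d1 Q
      rw [h1] at q4
      omega)
  refine ⟨(y, y'), ?_, ?_⟩
  · simpa [lf, Rbs.lf, up, π, hab.symm, insert_subset_iff] using g1
  have := PK.biUnion (E := E) M (fun g => cl (g ∘ π)) (fun g hg => PK.single (g2 g hg))
    fun g hg g' hg' hne => disjoint_cl.2 fun j => Rbs.disjoint_tri.1 (g3 hg hg' hne) (π j)
  convert this using 1
  ext ⟨j, t⟩
  have e := congrArg (fun U => (π j, t) ∈ U) g4
  simp only [mem_biUnion, Rbs.mem_tri, mem_sdiff, mem_univ, true_and, mem_union, dn, mem_filter,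
    s2, eq_iff_iff] at e
  simp only [mem_biUnion, mem_cl, mem_sdiff, mem_univ, true_and, mem_union, comp_apply, e]
  have e2 : u2 a b (fun _ => s) (y, y') j = ![y, s, y'] (π j) := by
    rcases h5 j with rfl | rfl | rfl <;> simp [u2, π, hab, hab.symm, hk]
  rw [e2]

end Pool.Agent.Lib.MP_356f68_co.Hyp
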