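import Mathlib
import Pool.Agent.Lib.MP_356f68_co.Hyp.Main
import Pool.Agent.Lib.MP_356f68_co.Rob.Lift

/-! The window theorem after deleting a small balanced set. -/

set_option autoImplicit false
set_option linter.unusedSectionVars false

namespace Pool.Agent.Lib.MP_356f68_co.Hyp

open Finset Function Pool.Agent.Lib.MP_356f68_co.Cube

theorem windowF {K C p' p : ℕ} (hK3 : 3 ≤ K) (hp : 8 ≤ p) (hC : PrepK K C p' p) :
    ∃ C : ℕ, ∀ (κ α : Type) [Fintype κ] [DecidableEq κ] [Fintype α]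
    [DecidableEq α] (X : ℕ), Fintype.card κ = K → 1 ≤ X →
    C * (Nat.log 2 (Fintype.card α) + 1) ^ (p' + p) * X ^ p ≤ Fintype.card α →
    ∀ (E : (κ → α) → Prop) [DecidablePred E], LK E → ∀ a b : κ, a ≠ b → WnK E a b (1 / X) →
    ∀ (F : Finset (κ × α)) (f : ℕ), (∀ j, sz F j = f) → F.card ^ 2 ≤ Fintype.card α →
    (∀ (A : Type) [AddCommGroup A] (lam : κ → α → A), (∀ g, E g → ∑ j, lam j (g j) = 0) →
      ∑ j, ∑ t, lam j t = ∑ x ∈ F, lam x.1 x.2) → PK E (univ \ F) := by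
  obtain ⟨J0, hJ⟩ : ∃ J : ℕ, 1800 ≤ J := ⟨_, le_rfl⟩
  obtain ⟨R, hR⟩ : ∃ R, R = 2 * K + 2 := ⟨_, rfl⟩
  refine ⟨(C + 1) * (R * (4 ^ J0 * 60) * R) ^ p,
    fun κ α _ _ _ _ X hK hX hn E _ hE a b hab hW F f hf hF hS => ?_⟩
  obtain ⟨k, -, hk⟩ := exists_mem_notMem_of_card_lt_card (s := {a, b}) (t := univ)
    (card_le_two.trans_lt (by rw [card_univ]; omega))
  simp only [mem_insert, mem_singleton, not_or] at hk
  have hak := Ne.symm hk.1
  have hbk := Ne.symm hk.2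
  set n := Fintype.card α with hn'
  obtain ⟨l, hl⟩ : ∃ l, l = Nat.log 2 n + 1 := ⟨_, rfl⟩
  have hl1 : 1 ≤ l := by omega
  have hl2 : n < 2 ^ l := hl ▸ Nat.lt_pow_succ_log_self (by norm_num) n
  obtain ⟨m, hm⟩ : ∃ m, m = l * R := ⟨_, rfl⟩
  have hm1 : l ≤ m := hm ▸ Nat.le_mul_of_pos_right _ (by omega)
  have hm2 : R ≤ m := hm ▸ Nat.le_mul_of_pos_left _ hl1
  obtain ⟨T, hT⟩ : ∃ T, T = 4 ^ J0 * (60 * X * m) := ⟨_, rfl⟩
  obtain ⟨Y, hY⟩ : ∃ Y, Y = R * T := ⟨_, rfl⟩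
  have t0 : (C + 1) * l ^ p' * Y ^ p ≤ n := by
    rw [← hl] at hn
    refine le_trans (le_of_eq ?_) hn
    rw [hY, hT, hm, show R * (4 ^ J0 * (60 * X * (l * R))) = R * (4 ^ J0 * 60) * R * X * l by ring,
      mul_pow _ l, mul_pow _ X, pow_add]
    ring
  have t1 : J0 ≤ 4 ^ J0 := (Nat.lt_pow_self (by norm_num)).le
  have t2 : R * X ≤ X * m := by rw [mul_comm]; exact Nat.mul_le_mul_left _ hm2
  have t2' : R ≤ R * X := Nat.le_mul_of_pos_right _ hX
  have t3 : 60 * J0 ≤ T ∧ 60 * (X * m) ≤ T := by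
    rw [hT, mul_assoc]
    exact ⟨by nlinarith, by nlinarith⟩
  have y1 : T ≤ Y := hY ▸ Nat.le_mul_of_pos_left _ (by omega)
  have t4 : Y ^ 8 ≤ n := by
    refine le_trans ?_ t0
    calc Y ^ 8 ≤ Y ^ p := Nat.pow_le_pow_right (by omega) (by omega)
      _ ≤ _ := Nat.le_mul_of_pos_left _ (by positivity)
  have t5 : 1000 * Y ≤ Y ^ 2 := by rw [sq]; exact Nat.mul_le_mul_right _ (by omega)
  have t6 : 1000 * Y ^ 2 ≤ n := by
    refine le_trans ?_ t4
    rw [show Y ^ 8 = Y ^ 2 * Y ^ 4 * Y ^ 2 by ring]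
    exact Nat.mul_le_mul_right _ (le_trans (by omega) (Nat.le_mul_of_pos_right _
      (Nat.pow_pos (by omega))))
  have : Nonempty α := Fintype.card_pos_iff.1 (by omega)
  obtain ⟨A, iA, lam, h, hσ⟩ := labK hE hab hak hbk
  obtain ⟨β, hβ⟩ : ∃ β, β = n / (20 * T) := ⟨_, rfl⟩
  have hβ1 : 20 * (T * β) ≤ n := by rw [← mul_assoc, hβ]; exact Nat.mul_div_le _ _
  have hβ2 : 20 * β ≤ T * β := Nat.mul_le_mul_right _ (by omega)
  obtain ⟨Good, b1, b2, b3⟩ := exists_vab hE hab hak hbk lam h hσ R X J0 (60 * X * m) T β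
    (by rw [hK, hR]) hJ hX hW (by omega) (by omega) (by rw [mul_assoc]; omega) hT (by
      have hX0 : (1 : ℝ) ≤ X := by exact_mod_cast hX
      have g1 : (1 - 1 / (6 * X) : ℝ) ^ (6 * X) ≤ 1 / 2 := by
        have g2 := Real.one_sub_div_pow_le_exp_neg (n := 6 * X) (t := 1) (by push_cast; linarith)
        push_cast at g2
        refine g2.trans ?_
        rw [Real.exp_neg, one_div]
        exact inv_anti₀ (by norm_num) (by linarith [Real.add_one_le_exp 1])
      have g2 : (0 : ℝ) ≤ 1 - 1 / (6 * X) := by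
        rw [sub_nonneg, div_le_one (by linarith)]; linarith
      have g3 : (n : ℝ) ≤ 2 ^ m := by
        exact_mod_cast hl2.le.trans (Nat.pow_le_pow_right (by norm_num) hm1)
      have g4 : (2 : ℝ) ≤ 2 ^ m := le_self_pow₀ (by norm_num) (by omega)
      calc _ ≤ ((2 : ℝ) ^ m) ^ 2 * (1 / 2) ^ (m * 10) := by
            rw [show 60 * X * m = 6 * X * (m * 10) by ring, pow_mul]
            gcongr
        _ = 1 / (2 ^ m) ^ 8 := by rw [pow_mul, one_div_pow]; field_simp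
        _ ≤ _ := one_div_le_one_div_of_le (by norm_num)
            (le_trans (by norm_num) (pow_le_pow_left₀ (by norm_num) g4 8))) (by
      refine le_trans ?_ t4
      rw [show Y ^ 8 = (Y * Y ^ 2 * Y) ^ 2 by ring]
      gcongr <;> omega) (by
      have g1 : T * Y ≤ Y ^ 2 := by rw [sq]; exact Nat.mul_le_mul_right _ y1
      have : 10 * (T * (β + 2 + R * T)) = 10 * (T * β) + 20 * T + 10 * (T * Y) := by
        rw [hY]; ring
      omega)
  rw [← hY] at b3
  obtain ⟨q, S, r1, r2, r3, r4⟩ := hC κ α Y l hK (by omega) hl (le_trans (by gcongr; omega) t0) E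
    hE a b hab (by omega) F hF
  have c0 : 1000 * Y ^ 2 * F.card ≤ n := by
    refine (Nat.pow_le_pow_iff_left (n := 2) (by norm_num)).1 ?_
    rw [mul_pow, sq n]
    refine Nat.mul_le_mul (le_trans ?_ t4) hF
    rw [show Y ^ 8 = (Y ^ 2 * Y ^ 2) ^ 2 by ring]
    gcongr
    omega
  obtain ⟨s, hs⟩ : ∃ s, s = (S ∪ F).card := ⟨_, rfl⟩
  have c1 : 1000 * (T * (Y * s)) ≤ n := by
    have g1 : Y ^ 2 * s ≤ Y ^ 2 * S.card + Y ^ 2 * F.card := by
      rw [← mul_add, hs]; exact Nat.mul_le_mul_left _ (card_union_le _ _)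
    have g2 : n ≤ K * n := Nat.le_mul_of_pos_left _ (by omega)
    have g3 : 2 * K * (T * (Y * s)) ≤ Y ^ 2 * s := by
      calc _ = 2 * K * T * Y * s := by ring
        _ ≤ R * T * Y * s := by gcongr; omega
        _ = _ := by rw [← hY, sq]
    refine Nat.le_of_mul_le_mul_left (c := 2 * K) ?_ (by omega)
    rw [mul_assoc] at c0
    rw [← hn'] at r1
    rw [mul_left_comm, mul_assoc 2 K n]
    omega
  have c2 : s ≤ Y * s := Nat.le_mul_of_pos_left _ (by omega)
  have c3 : (2 * K + (2 * Y + 2)) * s ≤ 3 * (Y * s) :=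
    (Nat.mul_le_mul_right _ (by omega)).trans (mul_assoc _ _ _).le
  have c4 : 4 * K * (Y * s) ≤ T * (Y * s) := Nat.mul_le_mul_right _ (by omega)
  obtain ⟨Cl, l1, l2, l3, l4⟩ := closer hE hab hak hbk lam h (K := 2 * K) (by rw [hK]) b3 b1 b2
    q (S ∪ F) (r3.trans subset_union_left) (by
      rw [← hs]
      refine le_trans (show _ ≤ 4 * (Y * s) by omega) ?_
      rw [hβ, Nat.le_div_iff_mul_le (by omega)]
      have : 4 * (Y * s) * (20 * T) = 80 * (T * (Y * s)) := by ring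
      omega) (by omega)
  rw [← hs] at l1
  rw [disjoint_union_right] at l2
  obtain ⟨m', hm'⟩ := l3.bal
  obtain ⟨u, u1, u3⟩ := r4 (F ∪ Cl) (f + m') subset_union_left
    (fun j => by rw [sz_union l2.2.symm, hf, hm']) (disjoint_union_left.2 ⟨r2.symm, l2.1⟩) (by
      have g0 : F.card ≤ s := hs ▸ card_le_card subset_union_right
      have g1 : K * (F ∪ Cl).card ≤ K * (4 * (Y * s)) :=
        Nat.mul_le_mul_left _ ((card_union_le _ _).trans (by omega))
      rw [hK]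
      rw [mul_left_comm, ← mul_assoc] at g1
      omega)
  have f1 : cl (u2 a b q u) ⊆ S := by
    rw [cl_u2 hab]
    exact union_subset r3 u1
  have f2 : Disjoint Cl (cl (u2 a b q u)) := l2.1.mono_right f1
  have f3 : Disjoint F (Cl ∪ cl (u2 a b q u)) :=
    disjoint_union_right.2 ⟨l2.2.symm, r2.symm.mono_right f1⟩
  rw [union_assoc] at u3
  have f5 : ∑ x : κ × α, lam x.1 x.2 = ∑ x ∈ F, lam x.1 x.2 := by
    rw [Fintype.sum_prod_type, hS A lam h]
  rw [← sum_sdiff (subset_univ (F ∪ (Cl ∪ cl (u2 a b q u)))), u3.wt h, sum_union f3, sum_union f2,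
    l3.wt h, zero_add, zero_add, add_eq_left, cl,
    sum_image fun a _ b _ h => (Prod.ext_iff.1 h).1] at f5
  have f6 := u3.union (l4 u (u1.trans subset_union_left) f5)
    (sdiff_disjoint.mono_right subset_union_right)
  convert f6 using 1
  ext x
  have e1 : x ∈ F → x ∉ Cl ∪ cl (u2 a b q u) := fun h => disjoint_left.1 f3 h
  rw [mem_union, mem_sdiff, mem_sdiff, mem_union]
  simp only [mem_univ, true_and]
  tauto

end Pool.Agent.Lib.MP_356f68_co.Hyp
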