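import Mathlib
import Pool.Agent.Lib.MP_356f68_co.Hyp.Mov

/-! Covering the hyperplanes on which two hypercubes differ by cells of total weight zero. -/

set_option autoImplicit false
set_option linter.unusedSectionVars false

namespace Pool.Agent.Lib.MP_356f68_co.Hyp

open Finset Function Pool.Agent.Lib.MP_356f68_co.Cube

variable {κ α : Type} [Fintype κ] [DecidableEq κ] [Fintype α] [DecidableEq α]
  {E E' : (κ → α) → Prop} [DecidablePred E] [DecidablePred E']

lemma PK.mono {U : Finset (κ × α)} (h : PK E U) (hE : ∀ g, E g → cl g ⊆ U → E' g) : PK E' U := by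
  obtain ⟨M, h1, h2, rfl⟩ := h
  exact ⟨M, fun g hg => hE g (h1 g hg) (subset_biUnion_of_mem cl hg), h2, rfl⟩

lemma hit (hE : LK E) (h3 : 3 ≤ Fintype.card κ) (x : κ × α) (B : Finset (κ × α)) :
    ((Cn E x.1 x.2).filter (fun g => ¬ Disjoint ((cl g).erase x) B)).card * Fintype.card α
      ≤ B.card * Fintype.card α ^ (Fintype.card κ - 2) := by
  have h1 : (Cn E x.1 x.2).filter (fun g => ¬ Disjoint ((cl g).erase x) B) ⊆ B.biUnion
      (fun y => (Cn E x.1 x.2).filter (fun g => y.1 ≠ x.1 ∧ g y.1 = y.2)) := fun g hg => by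
    obtain ⟨g1, g2⟩ := mem_filter.1 hg
    obtain ⟨y, y1, y2⟩ := not_disjoint_iff.1 g2
    obtain ⟨y3, y4⟩ := mem_erase.1 y1
    refine mem_biUnion.2 ⟨y, y2, mem_filter.2 ⟨g1, fun e => y3 (Prod.ext e ?_), mem_cl.1 y4⟩⟩
    rw [← mem_cl.1 y4, e, (mem_Cn.1 g1).2]
  refine (Nat.mul_le_mul_right _ ((card_le_card h1).trans card_biUnion_le)).trans ?_
  rw [sum_mul, ← smul_eq_mul, ← sum_const]
  refine sum_le_sum fun y _ => ?_
  by_cases h : y.1 = x.1
  · simp [h]
  obtain ⟨k, -, hk⟩ := exists_mem_notMem_of_card_lt_card (s := {x.1, y.1}) (t := univ)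
    (card_le_two.trans_lt (by rw [card_univ]; omega))
  simp only [mem_insert, mem_singleton, not_or] at hk
  simp only [ne_eq, h, not_false_eq_true, true_and]
  rw [cn_two hE (Ne.symm h) (Ne.symm hk.1) x.2 (fun g => g y.1 = y.2) (fun g => by simp)
    (fun g t => by rw [update_of_ne (Ne.symm hk.2)]), card_Cn hE (Ne.symm h)]

lemma col_cnt (hE : LK E) (hE' : LK E') {j k : κ} (h : k ≠ j) (t : α) :
    (univ.filter (fun g => E g ∧ sol hE' k g = t)).card
      = Fintype.card α ^ (Fintype.card κ - 2) := by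
  have h0 : 0 < Fintype.card α := Fintype.card_pos_iff.2 ⟨t⟩
  refine Nat.eq_of_mul_eq_mul_right h0 ?_
  rw [cnt k E (fun g => sol hE' k g = t) (hE k) (fun g s => by rw [sol_up]),
    ← card_Cn hE h t, cn_aux hE h]
  refine Nat.eq_of_mul_eq_mul_right h0 ?_
  have h1 := cnt k (fun g : κ → α => g k = t) (fun _ => True) (fun g => by simp) (by simp)
  have h2 := cnt j (fun g : κ → α => sol hE' k g = t) (fun _ => True) (fun g =>
    (Finite.injective_iff_bijective.1 (sol_inj hE' h.symm g)).existsUnique t) (by simp)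
  simp only [and_true] at h1 h2
  rw [h1, h2]

theorem cover_diff (hE : LK E) (hE' : LK E') (h3 : 3 ≤ Fintype.card κ) (H : Finset (κ × α))
    (hH : ∀ g, E' g → Disjoint (cl g) H → E g)
    (hn : H.card ^ 2 * (1 + (H.card + Fintype.card κ * H.card)) < Fintype.card α) :
    ∃ F : Finset (κ × α), H ⊆ F ∧ F.card ≤ Fintype.card κ * H.card ∧ PK E F ∧
      ∀ (A : Type) [AddCommGroup A] (lam : κ → α → A), (∀ g, E' g → ∑ j, lam j (g j) = 0) →
        ∑ x ∈ F, lam x.1 x.2 = 0 := by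
  obtain ⟨β, hβ⟩ : ∃ β, β = H.card + Fintype.card κ * H.card := ⟨_, rfl⟩
  obtain ⟨Z, hZ, hh⟩ : ∃ Z : κ × α → Finset (κ × α) → Finset (κ → α),
      (∀ x B g, g ∈ Z x B ↔ g ∈ Cn E x.1 x.2 ∧ ¬ Disjoint ((cl g).erase x) B) ∧
      ∀ x B, (Z x B).card * Fintype.card α ≤ B.card * Fintype.card α ^ (Fintype.card κ - 2) :=
    ⟨_, fun _ _ _ => mem_filter, hit hE h3⟩
  have other : ∀ k : κ, ∃ j, k ≠ j := fun k => by
    obtain ⟨j, hj⟩ := Fintype.exists_ne_of_one_lt_card (by omega) k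
    exact ⟨j, hj.symm⟩
  have hC : ∀ x : κ × α, (Cn E x.1 x.2).card = Fintype.card α ^ (Fintype.card κ - 2) := fun x =>
    (other x.1).elim fun _ hj => card_Cn hE hj _
  have hP : ∀ y : κ × α, (univ.filter (fun g => E g ∧ sol hE' y.1 g = y.2)).card
      = Fintype.card α ^ (Fintype.card κ - 2) := fun y =>
    (other y.1).elim fun _ hj => col_cnt hE hE' hj _
  have m0 : 0 < Fintype.card α ^ (Fintype.card κ - 2) := Nat.pow_pos (by omega)
  rw [← hβ] at hn
  set n := Fintype.card α with hn'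
  generalize n ^ (Fintype.card κ - 2) = m at hh hC hP m0
  obtain ⟨N, hN⟩ : ∃ N : κ × α → κ × α → Finset (κ → α),
      ∀ x y g, g ∈ N x y ↔ g ∈ Cn E x.1 x.2 ∧ (x.1, sol hE' x.1 g) = y :=
    ⟨fun x y => (Cn E x.1 x.2).filter (fun g => (x.1, sol hE' x.1 g) = y),
      fun _ _ _ => mem_filter⟩
  obtain ⟨t, ht⟩ : ∃ t : H → Finset (κ × α),
      ∀ x y, y ∈ t x ↔ y ∈ H ∧ β * m < (N x y).card * n :=
    ⟨fun x => H.filter (fun y => β * m < (N x y).card * n), fun _ _ => mem_filter⟩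
  obtain ⟨f, f1, f2⟩ := (all_card_le_biUnion_card_iff_exists_injective t).1 fun S => by
    set Γ := S.biUnion t with hΓ
    have a1 : ∀ x ∈ S, m * n ≤ H.card * m + H.card * (β * m) + (∑ y ∈ Γ, (N x y).card) * n := by
      intro x hx
      have b1 : Cn E x.1.1 x.1.2 ⊆ Z x H ∪ (H \ t x).biUnion (N x)
            ∪ Γ.biUnion (N x) := fun g hg => by
        have g0 : g ∈ N x (x.1.1, sol hE' x.1.1 g) := (hN _ _ _).2 ⟨hg, rfl⟩
        by_cases c1 : (x.1.1, sol hE' x.1.1 g) ∈ t x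
        · exact mem_union_right _ (mem_biUnion.2 ⟨_, mem_biUnion.2 ⟨x, hx, c1⟩, g0⟩)
        by_cases c2 : (x.1.1, sol hE' x.1.1 g) ∈ H
        · exact mem_union_left _ (mem_union_right _ (mem_biUnion.2 ⟨_, mem_sdiff.2 ⟨c2, c1⟩, g0⟩))
        refine mem_union_left _ (mem_union_left _ ((hZ _ _ _).2 ⟨hg, fun hd => c2 ?_⟩))
        obtain ⟨g1, g2⟩ := mem_Cn.1 hg
        have g3 := hH _ (sol_spec hE' x.1.1 g) (disjoint_left.2 fun y hy hy' => by
          by_cases e : y.1 = x.1.1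
          · have := mem_cl.1 hy
            rw [e, update_self] at this
            exact c2 (by rwa [this, ← e])
          · exact disjoint_left.1 hd (mem_erase.2 ⟨fun e' => e (e' ▸ rfl), mem_cl.2 (by
              rw [← mem_cl.1 hy, update_of_ne e])⟩) hy')
        rw [← sol_eq hE g3, sol_self hE _ g1, g2]
        exact x.2
      have b2 := (card_le_card b1).trans ((card_union_le _ _).trans (Nat.add_le_add
        ((card_union_le _ _).trans (Nat.add_le_add_left card_biUnion_le _)) card_biUnion_le))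
      have b3 : (∑ y ∈ H \ t x, (N x y).card) * n ≤ H.card * (β * m) := by
        rw [sum_mul]
        refine (sum_le_card_nsmul _ _ (β * m) fun y hy => ?_).trans
          (Nat.mul_le_mul_right _ (card_le_card sdiff_subset))
        obtain ⟨y1, y2⟩ := mem_sdiff.1 hy
        exact not_lt.1 fun e => y2 ((ht _ _).2 ⟨y1, e⟩)
      have b4 := Nat.mul_le_mul_right n b2
      have b5 := hh x H
      rw [hC, add_mul, add_mul] at b4
      omega
    have a2 : ∀ y, ∑ x ∈ S, (N x y).card ≤ m := fun y => by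
      rw [← card_biUnion, ← hP y]
      · refine card_le_card fun g hg => ?_
        obtain ⟨x, -, g1⟩ := mem_biUnion.1 hg
        obtain ⟨g2, rfl⟩ := (hN _ _ _).1 g1
        exact mem_filter.2 ⟨mem_univ _, (mem_Cn.1 g2).1, rfl⟩
      · refine fun x _ x' _ hne => disjoint_left.2 fun g g1 g2 => hne (Subtype.ext ?_)
        obtain ⟨g3, g4⟩ := (hN _ _ _).1 g1
        obtain ⟨g5, g6⟩ := (hN _ _ _).1 g2
        have e : x.1.1 = x'.1.1 := (Prod.ext_iff.1 (g4.trans g6.symm)).1
        exact Prod.ext e (by rw [← (mem_Cn.1 g3).2, e, (mem_Cn.1 g5).2])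
    have a3 := card_nsmul_le_sum S _ _ a1
    rw [sum_add_distrib, sum_const, ← sum_mul, sum_comm, smul_eq_mul, smul_eq_mul] at a3
    have a4 := Nat.mul_le_mul_right n (sum_le_card_nsmul Γ _ m fun y _ => a2 y)
    have a5 : S.card ≤ H.card := by simpa using card_le_univ S
    have a6 : S.card * (H.card * m + H.card * (β * m)) ≤ H.card ^ 2 * (1 + β) * m :=
      (Nat.mul_le_mul_right _ a5).trans (le_of_eq (by ring))
    have a7 := Nat.mul_lt_mul_of_pos_right hn m0
    rw [smul_eq_mul] at a4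
    refine Nat.le_of_lt_succ (Nat.lt_of_mul_lt_mul_right (a := m * n) ?_)
    have : Γ.card.succ * (m * n) = Γ.card * m * n + n * m := by rw [Nat.succ_mul]; ring
    omega
  obtain ⟨W, w1, w2⟩ := greedy (univ : Finset H) (fun x W => ∃ g ∈ N x (f x), W = (cl g).erase x)
    H (Fintype.card κ) β (fun x _ B _ b2 => by
      obtain ⟨g, g1, g2⟩ := exists_mem_notMem_of_card_lt_card (Nat.lt_of_mul_lt_mul_right
        (((hh x B).trans (Nat.mul_le_mul_right _ b2)).trans_lt ((ht _ _).1 (f2 x)).2))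
      refine ⟨_, card_erase_le.trans (card_cl g).le, ?_, g, g1, rfl⟩
      exact not_not.1 fun e => g2 ((hZ _ _ _).2 ⟨((hN _ _ _).1 g1).1, e⟩)) (by simp [hβ])
  choose g g1 g2 using fun x => (w1 x (mem_univ x)).2.2
  have g3 : ∀ x, E (g x) ∧ g x x.1.1 = x.1.2 := fun x => mem_Cn.1 ((hN _ _ _).1 (g1 x)).1
  have g4 : ∀ x, cl (g x) = insert x.1 (W x) := fun x => by
    rw [g2 x, insert_erase (mem_cl.2 (g3 x).2)]
  have g5 : ∀ x x', x ≠ x' → Disjoint (cl (g x)) (cl (g x')) := fun x x' hne => by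
    rw [g4, g4, disjoint_insert_left, disjoint_insert_right, mem_insert, not_or]
    exact ⟨⟨fun e => hne (Subtype.ext e), disjoint_right.1 (w1 x' (mem_univ _)).2.1 x.2⟩,
      disjoint_right.1 (w1 x (mem_univ _)).2.1 x'.2, w2 x (mem_univ _) x' (mem_univ _) hne⟩
  refine ⟨univ.biUnion (fun x => cl (g x)), fun x hx => mem_biUnion.2
    ⟨⟨x, hx⟩, mem_univ _, mem_cl.2 (g3 _).2⟩, ?_, PK.biUnion _ _ (fun x _ => PK.single (g3 x).1)
    fun x _ x' _ => g5 x x', fun A _ lam h => ?_⟩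
  · exact (card_biUnion_le_card_mul _ _ _ fun x _ => (card_cl _).le).trans
      (by simp [mul_comm])
  rw [sum_biUnion fun x _ x' _ => g5 x x']
  have g6 : ∀ x : H, ∑ y ∈ cl (g x), lam y.1 y.2 = lam x.1.1 x.1.2 - lam (f x).1 (f x).2 := by
    intro x
    have e := h _ (sol_spec hE' x.1.1 (g x))
    rw [sum_up, (g3 x).2] at e
    rw [cl, sum_image fun a _ b _ h => (Prod.ext_iff.1 h).1, ← ((hN _ _ _).1 (g1 x)).2]
    linear_combination (norm := abel) e
  have g7 : Bijective (fun x : H => (⟨f x, ((ht _ _).1 (f2 x)).1⟩ : H)) :=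
    Finite.injective_iff_bijective.1 fun x x' e => f1 (congrArg Subtype.val e)
  simp only [g6, sum_sub_distrib]
  rw [← g7.sum_comp (fun x : H => lam x.1.1 x.1.2), sub_self]

end Pool.Agent.Lib.MP_356f68_co.Hyp
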