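import Mathlib
import Pool.Agent.Lib.MP_356f68_co.Rob.Main
import Pool.Agent.Lib.MP_356f68_co.Rob.Pert

/-! A Latin hypercube of large order that agrees outside few hyperplanes with a hypercube whose
move operator has no eigenvalue in a polynomially small window below `1` has a transversal if
`d` is odd, `n` is odd or no abelian labelling of the second hypercube forbids it. -/

set_option autoImplicit false

namespace Pool.Agent.Lib.MP_356f68_co.WindowStable

open Pool.Agent.Lib.MP_356f68_co Pool.Agent.Lib.MP_356f68_co.Hyp Function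

theorem result : ∀ d : ℕ, 2 ≤ d → ∃ c : ℕ, ∀ n : ℕ, c ≤ n →
    ∀ L M : (Fin d → Fin n) → Fin n,
    (∀ (x : Fin d → Fin n) (j : Fin d),
      Function.Bijective (fun t : Fin n => L (Function.update x j t))) →
    (∀ (x : Fin d → Fin n) (j : Fin d),
      Function.Bijective (fun t : Fin n => M (Function.update x j t))) →
    ∀ H : Finset (Option (Fin d) × Fin n), c * H.card ^ 3 ≤ n →
    (∀ x : Fin d → Fin n, (∀ j : Fin d, (some j, x j) ∉ H) → (none, M x) ∉ H → L x = M x) →
    ∀ a b : Option (Fin d), a ≠ b →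
    ∀ C : Finset (Option (Fin d) → Fin n), (∀ g, g ∈ C ↔ M (fun j => g (some j)) = g none) →
    (∀ (f : Fin n → Fin n → ℝ) (μ : ℝ), f ≠ 0 →
      (∀ r c : Fin n, ∑ k : Option (Fin d), ∑ g ∈ C, ∑ h ∈ C, ∑ r' : Fin n, ∑ c' : Fin n,
        (if k ≠ a ∧ k ≠ b ∧ g a = r ∧ h b = c ∧
            Function.update (Function.update g k (h k)) a r' ∈ C ∧
            Function.update (Function.update h k (g k)) b c' ∈ C then f r' c' else 0)
          = μ * (((d : ℝ) - 1) * (n : ℝ) ^ (2 * (d - 1))) * f r c) →
      μ = 1 ∨ μ ≤ 1 - (n : ℝ) ^ (-(1 / (if d = 2 then 400 else 500) : ℝ))) →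
    (Odd d ∨ Odd n ∨ ∀ (A : Type) [AddCommGroup A] (φ : Fin d → Fin n → A) (σ : Fin n → A),
      (∀ x : Fin d → Fin n, ∑ j, φ j (x j) = σ (M x)) → ∑ j, ∑ t, φ j t = ∑ s, σ s) →
    ∃ T : Fin n → Fin d → Fin n, (∀ j : Fin d, Function.Injective (fun i => T i j)) ∧
      Function.Injective (fun i => L (T i)) := by
  intro d hd
  obtain ⟨P, p', p, m, hP, hp, hm, hm'⟩ : ∃ P p' p m : ℕ, PrepK (d + 1) P p' p ∧ 8 ≤ p ∧ p < m ∧
      (m : ℝ) = if d = 2 then 400 else 500 := by
    by_cases h2 : d = 2
    · obtain ⟨P, hP⟩ := prepK3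
      exact ⟨P, 605, 396, 400, by rwa [h2], by omega, by omega, by simp [h2]⟩
    · obtain ⟨P, hP⟩ := prepK4 (K := d + 1) (by omega)
      exact ⟨P, 735, 480, 500, hP, by omega, by omega, by simp [h2]⟩
  obtain ⟨C0, h0⟩ := windowF (by omega) hp hP
  obtain ⟨n0, g0⟩ := size C0 p (p' + p) m hm
  refine ⟨n0 + (d + 3) ^ 2 + 1, fun n hn L M hL hM H hH hLM a b hab C hC hW h => ?_⟩
  have : Nonempty (Fin n) := ⟨⟨0, by omega⟩⟩
  have lk : ∀ L : (Fin d → Fin n) → Fin n, (∀ x j, Bijective (fun t => L (update x j t))) →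
      LK (fun g : Option (Fin d) → Fin n => L (fun j => g (some j)) = g none) := fun L hL k g => by
    cases k with
    | none => simp
    | some j =>
      simp only [update_of_ne (Option.some_ne_none j).symm,
        update_comp_eq_of_injective' g (Option.some_injective _) j]
      exact (hL _ j).existsUnique _
  have hE : LK (fun g => g ∈ C) := by simpa only [hC] using lk M hM
  have hK : Fintype.card (Option (Fin d)) = d + 1 := by simp
  obtain ⟨k, -, hk⟩ := Finset.exists_mem_notMem_of_card_lt_card (s := {a, b}) (t := Finset.univ)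
    (Finset.card_le_two.trans_lt (by rw [Finset.card_univ, hK]; omega))
  simp only [Finset.mem_insert, Finset.mem_singleton, not_or] at hk
  have hak := Ne.symm hk.1
  have hbk := Ne.symm hk.2
  obtain ⟨X, x1, x2, x3⟩ := g0 n (by omega)
  have hW' : WnK (fun g => g ∈ C) a b (1 / X) := fun f μ f0 f1 =>
    (hW f μ f0 fun r c => by
      have := f1 r c
      rw [hK, Fintype.card_fin, show d + 1 - 2 = d - 1 from rfl, Nat.cast_pred (by omega)] at this
      rw [← this]
      refine Finset.sum_congr rfl fun k _ => ?_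
      rw [← Finset.sum_product', ← Fintype.sum_prod_type', ← Finset.sum_subset
        (Finset.subset_univ (C ×ˢ C)) fun w _ hw => Finset.sum_eq_zero fun _ _ =>
          Finset.sum_eq_zero fun _ _ => if_neg fun e => hw
            (Finset.mem_product.2 ⟨e.2.2.2.2.1, e.2.2.2.2.2.1⟩)]
      refine Finset.sum_congr rfl fun w hw => ?_
      simp only [Finset.mem_product.1 hw, true_and]).imp_right fun g => by
    rw [← hm'] at g
    linarith
  have h' : ∀ (A : Type) [AddCommGroup A] (lam : Option (Fin d) → Fin n → A),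
      (∀ g, g ∈ C → ∑ j, lam j (g j) = 0) → ∑ j, ∑ t, lam j t = 0 := by
    rcases h with h | h | h
    · exact fun A _ => parity hE hab hak hbk (Or.inl (hK ▸ h.add_one))
    · exact fun A _ => parity hE hab hak hbk (Or.inr (by rwa [Fintype.card_fin]))
    · intro A _ lam h0
      have := h A (fun j => lam (some j)) (fun s => -lam none s) fun x => by
        have := h0 (fun j => j.elim (M x) x) ((hC _).2 rfl)
        rw [Fintype.sum_option] at this
        exact eq_neg_of_add_eq_zero_right this
      rw [Fintype.sum_option, this, Finset.sum_neg_distrib, add_neg_cancel]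
  have hA : ∀ g, g ∈ C → Disjoint (cl g) H → L (fun j => g (some j)) = g none := fun g hg hd => by
    rw [← (hC g).1 hg]
    exact hLM _ (fun j => Finset.disjoint_left.1 hd (mem_cl.2 rfl))
      (Finset.disjoint_left.1 hd (mem_cl.2 ((hC g).1 hg).symm))
  have c1 : H.card ^ 2 ≤ H.card ^ 3 := by
    rcases Nat.eq_zero_or_pos H.card with e | e
    · simp [e]
    · exact Nat.pow_le_pow_right e (by norm_num)
  obtain ⟨F, f1, f2, f3, f4⟩ := cover_diff (lk L hL) hE (by omega) H hA (by
    rw [hK, Fintype.card_fin]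
    rcases Nat.eq_zero_or_pos H.card with e | e
    · simp only [e]; omega
    · have := Nat.pow_pos (n := 3) e
      nlinarith)
  obtain ⟨f, hf⟩ := f3.bal
  have f5 := h0 _ _ X hK x1 (by rwa [Fintype.card_fin]) _ hE a b hab hW' F f hf (by
    rw [hK] at f2
    rw [Fintype.card_fin]
    calc _ ≤ (d + 1) ^ 2 * H.card ^ 2 := mul_pow (d + 1) _ 2 ▸ Nat.pow_le_pow_left f2 2
      _ ≤ (d + 3) ^ 2 * H.card ^ 3 := by gcongr; omega
      _ ≤ _ := le_trans (Nat.mul_le_mul_right _ (by omega)) hH)
    fun A _ lam e => (h' A lam e).trans (f4 A lam e).symm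
  have f6 := (f5.mono fun g hg hs => hA g hg ((Finset.subset_sdiff.1 hs).2.mono_right f1)).union
    f3 Finset.sdiff_disjoint
  rw [Finset.sdiff_union_of_subset (Finset.subset_univ _)] at f6
  obtain ⟨T, t1, t2⟩ := f6.full a
  refine ⟨fun i j => T i (some j), fun j => t2 _, ?_⟩
  simp only [t1]
  exact t2 _

end Pool.Agent.Lib.MP_356f68_co.WindowStable
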